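import Mathlib

set_option autoImplicit false
set_option linter.unusedSectionVars false
set_option linter.style.haveILetI false

/-! Affine maps of finite groups: basics. `P ρ t` is the permutation `x ↦ ρ x * t`. -/

namespace Pool.Agent.V1134.AffOrd

universe u

section basics

variable {G : Type u} [Group G]

/-- the affine map `x ↦ ρ x * t` -/
def P (ρ : MulAut G) (t : G) : Equiv.Perm G := ρ.toEquiv.trans (Equiv.mulRight t)

lemma P_apply (ρ : MulAut G) (t x : G) : P ρ t x = ρ x * t := rfl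

lemma P_one : P (1 : MulAut G) (1 : G) = 1 := by
  ext x
  simp [P_apply]

lemma P_mul (ρ : MulAut G) (t v x : G) : P ρ t (v * x) = ρ v * P ρ t x := by
  simp [P_apply, mul_assoc]

lemma Ppow_mul (ρ : MulAut G) (t v x : G) (k : ℕ) :
    (P ρ t ^ k) (v * x) = (ρ ^ k) v * (P ρ t ^ k) x := by
  induction k generalizing v x with
  | zero => simp
  | succ k ih =>
    rw [pow_succ, Equiv.Perm.mul_apply, P_mul, ih, pow_succ, MulAut.mul_apply,
      Equiv.Perm.mul_apply]

lemma Ppow_eq (ρ : MulAut G) (t x : G) (k : ℕ) :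
    (P ρ t ^ k) x = (ρ ^ k) x * (P ρ t ^ k) 1 := by
  have := Ppow_mul ρ t x 1 k
  rwa [mul_one] at this

/-- powers of powers -/
lemma Ppow_pow_mul (ρ : MulAut G) (t v x : G) (L k : ℕ) :
    ((P ρ t ^ L) ^ k) (v * x) = ((ρ ^ L) ^ k) v * ((P ρ t ^ L) ^ k) x := by
  rw [← pow_mul, ← pow_mul, Ppow_mul]

end basics

section hom

variable {G H : Type u} [Group G] [Group H]

/-- `f` is compatible with the affine maps -/
structure Cm (f : G →* H) (ρ : MulAut G) (t : G) (σ : MulAut H) (s : H) : Prop where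
  aut : ∀ x, f (ρ x) = σ (f x)
  tr : f t = s

lemma Cm.app {f : G →* H} {ρ : MulAut G} {t : G} {σ : MulAut H} {s : H} (h : Cm f ρ t σ s) (x : G) :
    f (P ρ t x) = P σ s (f x) := by
  rw [P_apply, P_apply, map_mul, h.aut, h.tr]

lemma Cm.pow {f : G →* H} {ρ : MulAut G} {t : G} {σ : MulAut H} {s : H} (h : Cm f ρ t σ s) (k : ℕ)
    (x : G) : f ((P ρ t ^ k) x) = (P σ s ^ k) (f x) := by
  induction k with
  | zero => simp
  | succ k ih => rw [pow_succ', pow_succ', Equiv.Perm.mul_apply, Equiv.Perm.mul_apply, h.app, ih]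

lemma Cm.autpow {f : G →* H} {ρ : MulAut G} {t : G} {σ : MulAut H} {s : H} (h : Cm f ρ t σ s) (k : ℕ)
    (x : G) : f ((ρ ^ k) x) = (σ ^ k) (f x) := by
  induction k with
  | zero => simp
  | succ k ih => rw [pow_succ', pow_succ', MulAut.mul_apply, MulAut.mul_apply, h.aut, ih]

end hom

section inv

variable {G : Type u} [Group G]

/-- normal subgroup mapped into itself by `ρ` -/
structure Inv (ρ : MulAut G) (N : Subgroup G) : Prop where
  nrm : N.Normal
  map : ∀ x ∈ N, ρ x ∈ N

lemma Inv.map_eq [Finite G] {ρ : MulAut G} {N : Subgroup G} (h : Inv ρ N) :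
    N.map (ρ : G ≃* G).toMonoidHom = N := by
  have h1 : N.map (ρ : G ≃* G).toMonoidHom ≤ N := by
    rintro _ ⟨x, hx, rfl⟩
    exact h.map x hx
  apply Subgroup.eq_of_le_of_card_ge h1
  rw [Subgroup.card_map_of_injective]
  exact ρ.injective

lemma Inv.pow {ρ : MulAut G} {N : Subgroup G} (h : Inv ρ N) (k : ℕ) : ∀ x ∈ N, (ρ ^ k) x ∈ N := by
  induction k with
  | zero => intro x hx; simpa using hx
  | succ k ih => intro x hx; rw [pow_succ', MulAut.mul_apply]; exact h.map _ (ih x hx)

/-- the induced automorphism of the quotient -/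
noncomputable def quo [Finite G] {ρ : MulAut G} {N : Subgroup G} (h : Inv ρ N) :
    haveI := h.nrm; MulAut (G ⧸ N) :=
  haveI := h.nrm
  QuotientGroup.congr N N (ρ : G ≃* G) h.map_eq

lemma quo_mk [Finite G] {ρ : MulAut G} {N : Subgroup G} (h : Inv ρ N) (x : G) :
    haveI := h.nrm
    quo h (QuotientGroup.mk x : G ⧸ N) = QuotientGroup.mk (ρ x) := rfl

lemma quo_cm [Finite G] {ρ : MulAut G} {N : Subgroup G} (h : Inv ρ N) (t : G) :
    haveI := h.nrm
    Cm (QuotientGroup.mk' N) ρ t (quo h) (QuotientGroup.mk' N t) := by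
  haveI := h.nrm
  exact ⟨fun x => rfl, rfl⟩

lemma inv_comm {ρ : MulAut G} {N M : Subgroup G} (h : Inv ρ N) (h' : Inv ρ M) : Inv ρ ⁅N, M⁆ := by
  haveI := h.nrm
  haveI := h'.nrm
  refine ⟨inferInstance, fun x hx => ?_⟩
  have h1 : (⁅N, M⁆).map (ρ : G ≃* G).toMonoidHom ≤ ⁅N, M⁆ := by
    rw [Subgroup.map_commutator]
    apply Subgroup.commutator_mono
    · rintro _ ⟨y, hy, rfl⟩
      exact h.map y hy
    · rintro _ ⟨y, hy, rfl⟩
      exact h'.map y hy
  exact h1 ⟨x, hx, rfl⟩

lemma inv_top (ρ : MulAut G) : Inv ρ (⊤ : Subgroup G) := ⟨inferInstance, fun _ _ => trivial⟩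

lemma inv_commutator (ρ : MulAut G) : Inv ρ (commutator G) := inv_comm (inv_top ρ) (inv_top ρ)

end inv

section res

variable {G : Type u} [Group G] [Finite G]

/-- restriction of `ρ` to an invariant subgroup -/
noncomputable def res (ρ : MulAut G) (V : Subgroup G) (h : Inv ρ V) : MulAut V :=
  MulEquiv.ofBijective (((ρ : G ≃* G).toMonoidHom.comp V.subtype).codRestrict V
    (fun v => h.map v v.2)) (by
      rw [← Finite.injective_iff_bijective]
      intro a b hab
      apply Subtype.ext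
      exact ρ.injective (congrArg Subtype.val hab))

lemma res_coe (ρ : MulAut G) (V : Subgroup G) (h : Inv ρ V) (v : V) :
    ((res ρ V h v : V) : G) = ρ v := rfl

lemma res_pow (ρ : MulAut G) (V : Subgroup G) (h : Inv ρ V) (k : ℕ) (v : V) :
    (((res ρ V h ^ k) v : V) : G) = (ρ ^ k) v := by
  induction k with
  | zero => simp
  | succ k ih => rw [pow_succ', pow_succ', MulAut.mul_apply, MulAut.mul_apply, res_coe, ih]

end res

/-! ### Abstract part: automorphisms of a finite group with a set of commuting automorphisms -/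

section abs

variable {V : Type u} [Group V] [Finite V]

/-- If all powers of `β` are trivial or fixed point free and `β ≠ 1` then the order is small. -/
lemma order_lt (β : MulAut V) (hfree : ∀ k : ℕ, β ^ k = 1 ∨ ∀ v, (β ^ k) v = v → v = 1)
    (v₀ : V) (hv : v₀ ≠ 1) :
    Function.Injective (fun k : Fin (orderOf β) => (β ^ (k : ℕ)) v₀) := by
  have key : ∀ i j : ℕ, i ≤ j → j < orderOf β → (β ^ i) v₀ = (β ^ j) v₀ → i = j := by
    intro i j hij hj h
    obtain ⟨d, rfl⟩ := Nat.exists_eq_add_of_le hij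
    rw [pow_add, MulAut.mul_apply] at h
    have h1 : (β ^ d) v₀ = v₀ := ((β ^ i).injective h).symm
    rcases hfree d with h2 | h2
    · have h3 := orderOf_dvd_of_pow_eq_one h2
      rcases Nat.eq_zero_or_pos d with h4 | h4
      · omega
      · have := Nat.le_of_dvd h4 h3
        omega
    · exact absurd (h2 _ h1) hv
  intro a b hab
  apply Fin.ext
  rcases le_total (a : ℕ) (b : ℕ) with h | h
  · exact key _ _ h b.2 hab
  · exact (key _ _ h a.2 hab.symm).symm

/-- transitivity -/
lemma trans_of (β : MulAut V) (hfree : ∀ k : ℕ, β ^ k = 1 ∨ ∀ v, (β ^ k) v = v → v = 1)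
    (hcard : Nat.card V < 2 * orderOf β + 1) (v₀ u : V) (hv : v₀ ≠ 1) (hu : u ≠ 1) :
    ∃ k : ℕ, u = (β ^ k) v₀ := by
  classical
  haveI := Fintype.ofFinite V
  by_contra hcon
  push Not at hcon
  set o := orderOf β with ho
  have hpos : 0 < o := orderOf_pos β
  let F : Option (Fin o ⊕ Fin o) → V := fun z => match z with
    | none => 1
    | some (Sum.inl k) => (β ^ (k : ℕ)) v₀
    | some (Sum.inr k) => (β ^ (k : ℕ)) u
  have hF : Function.Injective F := by
    have i1 := order_lt β hfree v₀ hv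
    have i2 := order_lt β hfree u hu
    have hne : ∀ i j : ℕ, i < o → (β ^ i) v₀ ≠ (β ^ j) u := by
      intro i j hi h
      -- u = β^(-j) β^i v₀ = β^(i + (o*j - j)) v₀
      apply hcon (o * j - j + i)
      have h1 : (β ^ (o * j - j)) ((β ^ j) u) = u := by
        rw [← MulAut.mul_apply, ← pow_add]
        have : o * j - j + j = o * j := Nat.sub_add_cancel (Nat.le_mul_of_pos_left _ hpos)
        rw [this, pow_mul, ho, pow_orderOf_eq_one, one_pow, MulAut.one_apply]
      rw [pow_add, MulAut.mul_apply, h, h1]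
    have hn1 : ∀ (i : ℕ) (x : V), x ≠ 1 → (β ^ i) x ≠ 1 := by
      intro i x hx h
      exact hx ((β ^ i).injective (by rw [h, map_one]))
    rintro (_ | (a | a)) (_ | (b | b)) h
    · rfl
    · exact absurd h.symm (hn1 _ _ hv)
    · exact absurd h.symm (hn1 _ _ hu)
    · exact absurd h (hn1 _ _ hv)
    · have : a = b := i1 h
      rw [this]
    · exact absurd h (hne _ _ a.2)
    · exact absurd h (hn1 _ _ hu)
    · exact absurd h.symm (hne _ _ b.2)
    · have : a = b := i2 h
      rw [this]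
  have h1 := Nat.card_le_card_of_injective F hF
  have h2 : Nat.card (Option (Fin o ⊕ Fin o)) = 2 * o + 1 := by
    rw [Nat.card_eq_fintype_card, Fintype.card_option, Fintype.card_sum, Fintype.card_fin]
    ring
  rw [h2] at h1
  omega

/-- everything commuting with `β` is a power of `β` -/
lemma pow_of_comm (β : MulAut V) (hfree : ∀ k : ℕ, β ^ k = 1 ∨ ∀ v, (β ^ k) v = v → v = 1)
    (hcard : Nat.card V < 2 * orderOf β + 1) (c : MulAut V) (hc : c * β = β * c) :
    ∃ k : ℕ, c = β ^ k := by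
  by_cases hV : ∃ v₀ : V, v₀ ≠ 1
  · obtain ⟨v₀, hv⟩ := hV
    have hcv : c v₀ ≠ 1 := fun h => hv (c.injective (by rw [h, map_one]))
    obtain ⟨k, hk⟩ := trans_of β hfree hcard v₀ (c v₀) hv hcv
    refine ⟨k, ?_⟩
    ext u
    by_cases hu : u = 1
    · rw [hu, map_one, map_one]
    · obtain ⟨i, rfl⟩ := trans_of β hfree hcard v₀ u hv hu
      have h1 : c * β ^ i = β ^ i * c := (Commute.pow_right (show Commute c β from hc) i)
      rw [← MulAut.mul_apply, h1, MulAut.mul_apply, hk, ← MulAut.mul_apply, ← MulAut.mul_apply,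
        ← pow_add, ← pow_add, add_comm]
  · push Not at hV
    refine ⟨0, ?_⟩
    ext u
    rw [hV u, map_one, map_one]

end abs

end Pool.Agent.V1134.AffOrd
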