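import Pool.Agent.V1134.AffOrd.Final

set_option autoImplicit false
set_option linter.unusedSectionVars false
set_option linter.style.haveILetI false

/-! The derived subgroup of a solvable group with an affine map of order larger than half the group
order is cyclic. -/

namespace Pool.Agent.V1134.AffOrd

universe u

open scoped commutatorElement

lemma card_ker_range {A B : Type u} [Group A] [Group B] (f : A →* B) :
    Nat.card A = Nat.card f.ker * Nat.card f.range := by
  rw [f.ker.card_eq_card_quotient_mul_card_subgroup, mul_comm,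
    Nat.card_congr (QuotientGroup.quotientKerEquivRange f).toEquiv]

/-- power map on a commutative subgroup -/
def pw {G : Type u} [Group G] (D : Subgroup G) (hc : ∀ a b : D, a * b = b * a) (k : ℕ) :
    D →* D where
  toFun d := d ^ k
  map_one' := one_pow k
  map_mul' a b := by
    have h : Commute a b := hc a b
    exact h.mul_pow k

lemma pw_apply {G : Type u} [Group G] (D : Subgroup G) (hc : ∀ a b : D, a * b = b * a) (k : ℕ)
    (d : D) : pw D hc k d = d ^ k := rfl

lemma tors_prime (p : ℕ) (hp : p.Prime) (G : Type u) [Group G] [Finite G]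
    [Group.IsSolvable G] (ρ : MulAut G) (t : G)
    (hb : Nat.card G < 2 * orderOf (P ρ t)) (hc : ∀ a b : commutator G, a * b = b * a) :
    Nat.card (pw (commutator G) hc p).ker ≤ p := by
  obtain ⟨D, hD⟩ : ∃ D, D = commutator G := ⟨_, rfl⟩
  have hDi : Inv ρ D := hD ▸ inv_commutator ρ
  haveI := hDi.nrm
  subst hD
  obtain ⟨π, hπ⟩ : ∃ π, π = pw (commutator G) hc p := ⟨_, rfl⟩
  rw [← hπ]
  have hπa : ∀ d, π d = d ^ p := fun d => by rw [hπ]; rfl
  let Q : Subgroup G := π.range.map (commutator G).subtype
  have hQD : Q ≤ commutator G := by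
    rintro _ ⟨d, -, rfl⟩
    exact d.2
  have hQmem : ∀ x, x ∈ Q ↔ ∃ d ∈ commutator G, d ^ p = x := by
    intro x
    constructor
    · rintro ⟨_, ⟨d, rfl⟩, rfl⟩
      refine ⟨d, d.2, ?_⟩
      rw [hπa]
      rfl
    · rintro ⟨d, hd, rfl⟩
      refine ⟨π ⟨d, hd⟩, ⟨_, rfl⟩, ?_⟩
      rw [hπa]
      rfl
  have hQi : Inv ρ Q := by
    constructor
    · constructor
      intro x hx g
      obtain ⟨d, hd, rfl⟩ := (hQmem x).1 hx
      refine (hQmem _).2 ⟨g * d * g⁻¹, hDi.nrm.conj_mem d hd g, ?_⟩
      rw [conj_pow]
    · intro x hx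
      obtain ⟨d, hd, rfl⟩ := (hQmem x).1 hx
      refine (hQmem _).2 ⟨ρ d, hDi.map d hd, ?_⟩
      rw [map_pow]
  haveI := hQi.nrm
  have e0 : commutator (G ⧸ Q) = (commutator G).map (QuotientGroup.mk' Q) := comm_quo Q
  have hmem : ∀ y : commutator (G ⧸ Q), ∃ v ∈ commutator G, QuotientGroup.mk' Q v = y := by
    rintro ⟨y, hy⟩
    have hy' := hy
    rw [e0] at hy'
    obtain ⟨x, hx, hxy⟩ := hy'
    exact ⟨x, hx, hxy⟩
  have e3 := c2 p hp _ (G ⧸ Q) (quo hQi) (QuotientGroup.mk' Q t) rfl (quo_large ρ t Q hQi hb)
    (by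
      intro a b
      obtain ⟨x, hx, hx'⟩ := hmem a
      obtain ⟨y, hy, hy'⟩ := hmem b
      apply Subtype.ext
      rw [Subgroup.coe_mul, Subgroup.coe_mul, ← hx', ← hy', ← map_mul, ← map_mul]
      have := congrArg Subtype.val (hc ⟨x, hx⟩ ⟨y, hy⟩)
      change x * y = y * x at this
      rw [this])
    (by
      intro a
      obtain ⟨x, hx, hx'⟩ := hmem a
      apply Subtype.ext
      rw [Subgroup.coe_pow, ← hx', ← map_pow]
      exact (QuotientGroup.eq_one_iff _).2 ((hQmem _).2 ⟨x, hx, rfl⟩))
  -- counting
  have h1 := card_ker_range π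
  let f : commutator G →* G ⧸ Q := (QuotientGroup.mk' Q).comp (commutator G).subtype
  have hr : f.range = commutator (G ⧸ Q) := by
    rw [e0, MonoidHom.range_comp, Subgroup.range_subtype]
  have hk : f.ker = π.range := by
    ext d
    rw [MonoidHom.mem_ker]
    constructor
    · intro hd
      have h3 : (d : G) ∈ Q := (QuotientGroup.eq_one_iff _).1 hd
      obtain ⟨c, hc', hcd⟩ := (hQmem _).1 h3
      refine ⟨⟨c, hc'⟩, ?_⟩
      rw [hπa]
      exact Subtype.ext hcd
    · rintro ⟨c, rfl⟩
      apply (QuotientGroup.eq_one_iff _).2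
      exact ⟨_, ⟨c, rfl⟩, rfl⟩
  have h2 := card_ker_range f
  rw [hr, hk] at h2
  have h3 : 0 < Nat.card π.range := Nat.card_pos
  have h4 : Nat.card π.ker = Nat.card (commutator (G ⧸ Q)) := by
    have h5 : Nat.card π.range * Nat.card π.ker = Nat.card π.range * Nat.card (commutator (G ⧸ Q)) := by
      rw [← h2, h1, mul_comm]
    exact Nat.eq_of_mul_eq_mul_left h3 h5
  rw [h4]
  exact e3

lemma tors_le (G : Type u) [Group G] [Finite G]
    [Group.IsSolvable G] (ρ : MulAut G) (t : G)
    (hb : Nat.card G < 2 * orderOf (P ρ t)) (hc : ∀ a b : commutator G, a * b = b * a) :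
    ∀ n : ℕ, 0 < n → Nat.card (pw (commutator G) hc n).ker ≤ n := by
  intro n
  induction n using Nat.recOnMul with
  | zero => intro h; exact absurd h (lt_irrefl 0)
  | one =>
    intro _
    have : (pw (commutator G) hc 1).ker = ⊥ := by
      rw [eq_bot_iff]
      intro d hd
      rw [MonoidHom.mem_ker, pw_apply, pow_one] at hd
      rw [Subgroup.mem_bot]
      exact hd
    rw [this, Subgroup.card_bot]
  | prime p hp =>
    intro _
    exact tors_prime p hp G ρ t hb hc
  | mul a b iha ihb =>
    intro hab
    have ha : 0 < a := by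
      rcases Nat.eq_zero_or_pos a with h0 | h0
      · subst h0; simp at hab
      · exact h0
    have hb' : 0 < b := by
      rcases Nat.eq_zero_or_pos b with h0 | h0
      · subst h0; simp at hab
      · exact h0
    have h1 := iha ha
    have h2 := ihb hb'
    -- the map `x ↦ x ^ a` from the `ab`-torsion to the `b`-torsion
    let K := (pw (commutator G) hc (a * b)).ker
    let g : K →* commutator G := (pw (commutator G) hc a).comp K.subtype
    have h3 := card_ker_range g
    have h4 : Nat.card g.ker ≤ a := by
      refine le_trans ?_ h1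
      have : ∀ x : g.ker, ((x : K) : commutator G) ∈ (pw (commutator G) hc a).ker := by
        intro x
        exact x.2
      exact Nat.card_le_card_of_injective
        (fun x : g.ker => (⟨((x : K) : commutator G), this x⟩ : (pw (commutator G) hc a).ker))
        (by
          intro x y hxy
          have := congrArg Subtype.val hxy
          exact Subtype.ext (Subtype.ext this))
    have h5 : Nat.card g.range ≤ b := by
      refine le_trans ?_ h2
      have : g.range ≤ (pw (commutator G) hc b).ker := by
        rintro _ ⟨x, rfl⟩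
        rw [MonoidHom.mem_ker, pw_apply]
        change (((x : commutator G)) ^ a) ^ b = 1
        rw [← pow_mul]
        exact x.2
      exact Subgroup.card_le_of_le this
    rw [h3]
    exact Nat.mul_le_mul h4 h5

theorem cyc (G : Type u) [Group G] [Finite G]
    [Group.IsSolvable G] (ρ : MulAut G) (t : G)
    (hb : Nat.card G < 2 * orderOf (P ρ t)) : IsCyclic (commutator G) := by
  classical
  have h0 := meta_ind _ G ρ t rfl hb
  have hc : ∀ a b : commutator G, a * b = b * a := by
    intro a b
    have h1 : ⁅(a : G), (b : G)⁆ ∈ ⁅commutator G, commutator G⁆ :=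
      Subgroup.commutator_mem_commutator a.2 b.2
    rw [h0, Subgroup.mem_bot, commutatorElement_eq_one_iff_mul_comm] at h1
    exact Subtype.ext h1
  have h2 := tors_le G ρ t hb hc
  haveI : Fintype (commutator G) := Fintype.ofFinite _
  apply isCyclic_of_card_pow_eq_one_le
  intro n hn
  refine le_trans (le_of_eq ?_) (h2 n hn)
  rw [← Fintype.card_subtype, ← Nat.card_eq_fintype_card]
  exact Nat.card_congr (Equiv.subtypeEquivRight (fun a => by rw [MonoidHom.mem_ker, pw_apply]))

end Pool.Agent.V1134.AffOrd
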