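import Pool.Agent.V1134.AffOrd.Main

set_option autoImplicit false
set_option linter.unusedSectionVars false
set_option linter.style.haveILetI false

/-! Solvable groups with an affine map of order larger than half the group order are metabelian,
with cyclic derived subgroup. -/

namespace Pool.Agent.V1134.AffOrd

universe u

open scoped commutatorElement

theorem meta_ind : ∀ (n : ℕ) (G : Type u) [Group G] [Finite G]
    [Group.IsSolvable G] (ρ : MulAut G) (t : G), Nat.card G = n →
    Nat.card G < 2 * orderOf (P ρ t) → ⁅commutator G, commutator G⁆ = ⊥ := by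
  intro n
  induction n using Nat.strong_induction_on with
  | _ n ih =>
    intro G _ _ _ ρ t hn hb
    by_contra hne
    obtain ⟨D, hD⟩ : ∃ D, D = commutator G := ⟨_, rfl⟩
    rw [← hD] at hne
    have hDi : Inv ρ D := hD ▸ inv_commutator ρ
    haveI := hDi.nrm
    have hD2i : Inv ρ ⁅D, D⁆ := inv_comm hDi hDi
    obtain ⟨N, hN, hN2, hNc⟩ := exists_irr ρ ⁅D, D⁆ hD2i hne
    haveI := hN.inv.nrm
    have hD2D : ⁅D, D⁆ ≤ D := Subgroup.commutator_le_left D D
    have e1 : Nat.card (G ⧸ N) < n := by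
      rw [← hn, N.card_eq_card_quotient_mul_card_subgroup]
      have h1 : 0 < Nat.card (G ⧸ N) := Nat.card_pos
      have h2 : 1 < Nat.card N := by
        have h3 : Nat.card N ≠ 1 := fun h => hN.ne (Subgroup.card_eq_one.1 h)
        have h4 : 0 < Nat.card N := Nat.card_pos
        omega
      nlinarith
    have e2 := ih _ e1 (G ⧸ N) (quo hN.inv) (QuotientGroup.mk' N t) rfl
      (quo_large ρ t N hN.inv hb)
    rw [comm_quo, ← Subgroup.map_commutator, ← hD, Subgroup.map_eq_bot_iff,
      QuotientGroup.ker_mk'] at e2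
    -- N = D''
    obtain ⟨L, hl⟩ := exists_lev ρ t N hN.inv
    have hlt := hl.lt hb
    have hcomm := irr_comm hN hNc hl.cos hlt
    have hDN : ∀ d ∈ D, ∀ v ∈ N, d * v = v * d := by
      have h1 : D ≤ (kap N hN.inv.nrm).ker := by
        rw [hD, commutator_def, Subgroup.commutator_le]
        intro a _ b _
        rw [MonoidHom.mem_ker, map_commutatorElement, commutatorElement_eq_one_iff_mul_comm]
        exact hcomm a b
      intro d hd v hv
      have h2 := h1 hd
      rw [MonoidHom.mem_ker] at h2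
      have h3 := congrArg (fun f : MulAut N => ((f ⟨v, hv⟩ : N) : G)) h2
      simp only [kap_coe, MulAut.one_apply] at h3
      rw [mul_inv_eq_iff_eq_mul] at h3
      exact h3
    obtain ⟨p, hp, hpN, -⟩ := irr_exp hN hNc
    haveI : Fact p.Prime := ⟨hp⟩
    let Z : Subgroup G :=
      { carrier := {z | z ∈ D ∧ ∀ d ∈ D, d * z = z * d}
        one_mem' := ⟨D.one_mem, fun d _ => by rw [mul_one, one_mul]⟩
        mul_mem' := by
          rintro a b ⟨ha, ha'⟩ ⟨hb, hb'⟩
          refine ⟨D.mul_mem ha hb, fun d hd => ?_⟩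
          rw [← mul_assoc, ha' d hd, mul_assoc, hb' d hd, mul_assoc]
        inv_mem' := by
          rintro a ⟨ha, ha'⟩
          refine ⟨D.inv_mem ha, fun d hd => ?_⟩
          have := ha' d hd
          rw [eq_inv_mul_iff_mul_eq, ← mul_assoc, ← this, mul_assoc, mul_inv_cancel, mul_one] }
    have hZ : Inv ρ Z := by
      constructor
      · constructor
        rintro z ⟨hz, hz'⟩ g
        refine ⟨hDi.nrm.conj_mem z hz g, fun d hd => ?_⟩
        have h1 : g⁻¹ * d * g ∈ D := by
          have := hDi.nrm.conj_mem d hd g⁻¹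
          rwa [inv_inv] at this
        have h2 := hz' _ h1
        calc d * (g * z * g⁻¹) = g * ((g⁻¹ * d * g) * z) * g⁻¹ := by group
          _ = g * (z * (g⁻¹ * d * g)) * g⁻¹ := by rw [h2]
          _ = g * z * g⁻¹ * d := by group
      · rintro z ⟨hz, hz'⟩
        refine ⟨hDi.map z hz, fun d hd => ?_⟩
        have h1 : d ∈ D.map (ρ : G ≃* G).toMonoidHom := by rw [hDi.map_eq]; exact hd
        obtain ⟨d', hd', rfl⟩ := h1
        show ρ d' * ρ z = ρ z * ρ d'
        rw [← map_mul, ← map_mul, hz' d' hd']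
    haveI := hZ.nrm
    have hNZ : ⁅D, D⁆ ≤ Z := fun v hv => ⟨hD2D hv, fun d hd => hDN d hd v (e2 hv)⟩
    have e0 : commutator (G ⧸ Z) = D.map (QuotientGroup.mk' Z) := by rw [comm_quo, hD]
    have hmem : ∀ y : D.map (QuotientGroup.mk' Z), ∃ v ∈ D, QuotientGroup.mk' Z v = y := by
      rintro ⟨_, x, hx, rfl⟩
      exact ⟨x, hx, rfl⟩
    have hcm : ∀ a b : D.map (QuotientGroup.mk' Z), a * b = b * a := by
      intro a b
      obtain ⟨x, hx, hx'⟩ := hmem a
      obtain ⟨y, hy, hy'⟩ := hmem b
      apply Subtype.ext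
      rw [Subgroup.coe_mul, Subgroup.coe_mul, ← hx', ← hy', ← map_mul, ← map_mul]
      have h1 : ⁅x, y⁆ ∈ Z := hNZ (Subgroup.commutator_mem_commutator hx hy)
      have h2 : QuotientGroup.mk' Z ⁅x, y⁆ = 1 := (QuotientGroup.eq_one_iff _).2 h1
      rw [map_commutatorElement, commutatorElement_eq_one_iff_mul_comm] at h2
      rw [map_mul, map_mul]
      exact h2
    have hpow : ∀ a ∈ D, ∀ d ∈ D, ∀ k : ℕ, a ^ k * d = ⁅a, d⁆ ^ k * d * a ^ k := by
      intro a ha d hd k
      have hc1 : ⁅a, d⁆ ∈ N := e2 (Subgroup.commutator_mem_commutator ha hd)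
      have hca : Commute a (⁅a, d⁆ ) := hDN a ha _ hc1
      have hcd : Commute d (⁅a, d⁆ ) := hDN d hd _ hc1
      induction k with
      | zero => simp
      | succ k ih2 =>
        have h1 : a * d = ⁅a, d⁆ * d * a := by rw [commutatorElement_def]; group
        calc a ^ (k + 1) * d = a * (a ^ k * d) := by rw [pow_succ', mul_assoc]
          _ = a * (⁅a, d⁆ ^ k * d * a ^ k) := by rw [ih2]
          _ = (a * ⁅a, d⁆ ^ k) * d * a ^ k := by simp only [mul_assoc]
          _ = (⁅a, d⁆ ^ k * a) * d * a ^ k := by rw [(hca.pow_right k).eq]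
          _ = ⁅a, d⁆ ^ k * (a * d) * a ^ k := by simp only [mul_assoc]
          _ = ⁅a, d⁆ ^ k * (⁅a, d⁆ * d * a) * a ^ k := by rw [← h1]
          _ = ⁅a, d⁆ ^ (k + 1) * d * a ^ (k + 1) := by
            rw [pow_succ (⁅a, d⁆), pow_succ' a]; simp only [mul_assoc]
    have hem : ∀ a : D.map (QuotientGroup.mk' Z), a ^ p = 1 := by
      intro a
      obtain ⟨x, hx, hx'⟩ := hmem a
      apply Subtype.ext
      rw [Subgroup.coe_pow, ← hx', ← map_pow]
      apply (QuotientGroup.eq_one_iff _).2
      refine ⟨D.pow_mem hx p, fun d hd => ?_⟩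
      have h1 := hpow x hx d hd p
      have hc1 : ⁅x, d⁆ ∈ N := e2 (Subgroup.commutator_mem_commutator hx hd)
      have h2 := congrArg Subtype.val (hpN ⟨⁅x, d⁆, hc1⟩)
      rw [Subgroup.coe_pow] at h2
      rw [h1]
      change ⁅x, d⁆ ^ p = 1 at h2
      rw [h2, one_mul]
    have e3 := c2 p hp _ (G ⧸ Z) (quo hZ) (QuotientGroup.mk' Z t) rfl (quo_large ρ t Z hZ hb)
      (by rw [e0]; exact hcm) (by rw [e0]; exact hem)
    rw [e0] at e3
    have hdvd : Nat.card (D.map (QuotientGroup.mk' Z)) ∣ p := by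
      have hpg' : IsPGroup p (D.map (QuotientGroup.mk' Z)) := fun v => ⟨1, by
        rw [pow_one]; exact hem v⟩
      obtain ⟨j, hj⟩ := IsPGroup.iff_card.1 hpg'
      have hj1 : j ≤ 1 := by
        by_contra hcon
        push Not at hcon
        have h1 : p ^ 2 ≤ p ^ j := Nat.pow_le_pow_right hp.pos hcon
        have h2 := hp.two_le
        rw [hj] at e3
        nlinarith
      rw [hj]
      exact (Nat.pow_dvd_pow p hj1).trans (by rw [pow_one])
    let f : D →* G ⧸ Z := (QuotientGroup.mk' Z).comp D.subtype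
    have hr : f.range = D.map (QuotientGroup.mk' Z) := by
      rw [MonoidHom.range_comp, Subgroup.range_subtype]
    haveI : IsCyclic f.range := isCyclic_of_card_dvd_prime (p := p) (by rw [hr]; exact hdvd)
    have hDc : ∀ a b : D, a * b = b * a := by
      apply commutative_of_cyclic_center_quotient f.rangeRestrict
      intro z hz
      rw [MonoidHom.ker_rangeRestrict, MonoidHom.mem_ker] at hz
      have h1 : (z : G) ∈ Z := (QuotientGroup.eq_one_iff _).1 hz
      rw [Subgroup.mem_center_iff]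
      intro d
      exact Subtype.ext (h1.2 d d.2)
    apply hne
    rw [eq_bot_iff, Subgroup.commutator_le]
    intro a ha b hb'
    rw [Subgroup.mem_bot, commutatorElement_eq_one_iff_mul_comm]
    exact congrArg Subtype.val (hDc ⟨a, ha⟩ ⟨b, hb'⟩)

end Pool.Agent.V1134.AffOrd
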