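import Pool.Agent.V1134.AffOrd.Sec

set_option autoImplicit false
set_option linter.unusedSectionVars false
set_option linter.style.haveILetI false

/-! Minimal invariant normal subgroups and the bound for the order of an affine map. -/

namespace Pool.Agent.V1134.AffOrd

universe u

section irr

variable {G : Type u} [Group G] [Finite G]
variable {ρ : MulAut G} {t : G} {V : Subgroup G} (h : Irr ρ V)
  (hc : ∀ a b : V, a * b = b * a) {L : ℕ} (hL : ∀ x, (P ρ t ^ L) x * x⁻¹ ∈ V)

include h hc hL in
lemma irr_free (k : ℕ) : (res ρ V h.inv ^ L) ^ k = 1 ∨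
    ∀ v, ((res ρ V h.inv ^ L) ^ k) v = v → v = 1 := by
  set β := res ρ V h.inv ^ L with hβ
  have h1 : Inv ρ (fix V (β ^ k)) := by
    apply fix_inv ρ V h.inv
    · have : Commute (β ^ k) (res ρ V h.inv) := ((Commute.refl _).pow_left L).pow_left k
      exact this
    · intro g
      have : Commute β (kap V h.inv.nrm g) := beta_kap h.inv hc hL g
      exact this.pow_left k
  by_cases h2 : fix V (β ^ k) = ⊥
  · right
    intro v hv
    have h3 := (mem_fix V (β ^ k) v).2 hv
    rw [h2, Subgroup.mem_bot] at h3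
    exact Subtype.ext h3
  · left
    have h3 := h.min _ h1 (fix_le V _) h2
    ext v
    rw [MulAut.one_apply]
    have h4 : (v : G) ∈ fix V (β ^ k) := by rw [h3]; exact v.2
    exact congrArg Subtype.val ((mem_fix V (β ^ k) v).1 h4)

include h hc in
/-- a minimal invariant normal abelian subgroup has prime exponent -/
lemma irr_exp : ∃ p : ℕ, p.Prime ∧ (∀ v : V, v ^ p = 1) ∧ p ≤ Nat.card V := by
  have hne : Nat.card V ≠ 1 := by
    intro h1
    exact h.ne (Subgroup.card_eq_one.1 h1)
  obtain ⟨p, hp, hd⟩ := Nat.exists_prime_and_dvd hne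
  refine ⟨p, hp, ?_, Nat.le_of_dvd Nat.card_pos hd⟩
  haveI : Fact p.Prime := ⟨hp⟩
  let X : Subgroup G :=
    { carrier := {g | g ∈ V ∧ g ^ p = 1}
      one_mem' := ⟨V.one_mem, one_pow p⟩
      mul_mem' := by
        rintro a b ⟨ha, ha'⟩ ⟨hb, hb'⟩
        refine ⟨V.mul_mem ha hb, ?_⟩
        have : Commute a b := congrArg Subtype.val (hc ⟨a, ha⟩ ⟨b, hb⟩)
        rw [this.mul_pow, ha', hb', one_mul]
      inv_mem' := by
        rintro a ⟨ha, ha'⟩
        exact ⟨V.inv_mem ha, by rw [inv_pow, ha', inv_one]⟩ }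
  have hX : Inv ρ X := by
    constructor
    · constructor
      rintro n ⟨hn, hn'⟩ g
      refine ⟨h.inv.nrm.conj_mem n hn g, ?_⟩
      rw [conj_pow, hn', mul_one, mul_inv_cancel]
    · rintro x ⟨hx, hx'⟩
      exact ⟨h.inv.map x hx, by rw [← map_pow, hx', map_one]⟩
  obtain ⟨x, hx⟩ := exists_prime_orderOf_dvd_card' p hd
  have hX2 : X ≠ ⊥ := by
    intro hbot
    have h1 : (x : G) ∈ X := ⟨x.2, by
      rw [← Subgroup.coe_pow, ← hx, pow_orderOf_eq_one]; rfl⟩
    rw [hbot, Subgroup.mem_bot] at h1
    have h2 : x = 1 := Subtype.ext h1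
    rw [h2, orderOf_one] at hx
    exact hp.one_lt.ne hx
  have hXV := h.min X hX (fun g hg => hg.1) hX2
  intro v
  have h1 : (v : G) ∈ X := by rw [hXV]; exact v.2
  exact Subtype.ext (by rw [Subgroup.coe_pow]; exact h1.2)

include h hc hL in
/-- the order on an irreducible section is at most its size; more precisely -/
lemma irr_cases : (res ρ V h.inv ^ L = 1 ∧ ∃ p : ℕ, p.Prime ∧ (∀ v : V, v ^ p = 1) ∧
      p ≤ Nat.card V ∧ orderOf (P ρ t ^ L) ≤ p) ∨
    (res ρ V h.inv ^ L ≠ 1 ∧ orderOf (P ρ t ^ L) ≤ orderOf (res ρ V h.inv ^ L) ∧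
      orderOf (res ρ V h.inv ^ L) + 1 ≤ Nat.card V) := by
  set β := res ρ V h.inv ^ L with hβ
  have hfree := irr_free h hc hL
  rw [← hβ] at hfree
  by_cases h1 : β = 1
  · left
    refine ⟨h1, ?_⟩
    obtain ⟨p, hp, hp1, hp2⟩ := irr_exp h hc
    exact ⟨p, hp, hp1, hp2, Nat.le_of_dvd hp.pos (orderOf_dvd_of_pow_eq_one
      (ord_triv h.inv hc hL p h1 hp1))⟩
  · right
    refine ⟨h1, ?_, ?_⟩
    · apply Nat.le_of_dvd (orderOf_pos _)
      apply orderOf_dvd_of_pow_eq_one
      apply ord_free h.inv hc hL _ (pow_orderOf_eq_one β)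
      rcases hfree 1 with h2 | h2
      · rw [pow_one] at h2; exact absurd h2 h1
      · simpa using h2
    · have hV : ∃ v₀ : V, v₀ ≠ 1 := by
        by_contra hcon
        push Not at hcon
        apply h1
        ext v
        rw [hcon v, map_one, map_one]
      obtain ⟨v₀, hv⟩ := hV
      have h3 := order_lt β hfree v₀ hv
      classical
      let F : Option (Fin (orderOf β)) → V := fun z => z.elim 1 (fun k => (β ^ (k : ℕ)) v₀)
      have hF : Function.Injective F := by
        rintro (_ | a) (_ | b) hab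
        · rfl
        · exact absurd ((β ^ (b : ℕ)).injective (by
            rw [map_one]; exact hab.symm)) hv
        · exact absurd ((β ^ (a : ℕ)).injective (by
            rw [map_one]; exact hab)) hv
        · have : a = b := h3 hab
          rw [this]
      have h4 := Nat.card_le_card_of_injective F hF
      rwa [Nat.card_eq_fintype_card, Fintype.card_option, Fintype.card_fin] at h4

include h hc hL in
lemma irr_bound : orderOf (P ρ t ^ L) ≤ Nat.card V := by
  rcases irr_cases h hc hL with ⟨_, p, _, _, h1, h2⟩ | ⟨_, h1, h2⟩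
  · omega
  · omega

include h hc hL in
/-- large order and `β ≠ 1`: everything commuting with `β` is a power of `β` -/
lemma irr_powers (hlt : Nat.card V < 2 * orderOf (P ρ t ^ L)) (hβ : res ρ V h.inv ^ L ≠ 1)
    (c : MulAut V) (hcc : c * (res ρ V h.inv ^ L) = (res ρ V h.inv ^ L) * c) :
    ∃ k : ℕ, c = (res ρ V h.inv ^ L) ^ k := by
  rcases irr_cases h hc hL with ⟨h0, _⟩ | ⟨_, h1, h2⟩
  · exact absurd h0 hβ
  · exact pow_of_comm _ (irr_free h hc hL) (by omega) c hcc

include h hc hL in
/-- large order: conjugations commute with each other on `V` -/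
lemma irr_comm (hlt : Nat.card V < 2 * orderOf (P ρ t ^ L)) (g g' : G) :
    kap V h.inv.nrm g * kap V h.inv.nrm g' = kap V h.inv.nrm g' * kap V h.inv.nrm g := by
  by_cases hβ : res ρ V h.inv ^ L = 1
  · rcases irr_cases h hc hL with ⟨_, p, hp, hp1, hp2, hp3⟩ | ⟨h0, _⟩
    · -- card V = p
      have hpg : IsPGroup p V := fun v => ⟨1, by rw [pow_one]; exact hp1 v⟩
      haveI : Fact p.Prime := ⟨hp⟩
      obtain ⟨n, hn⟩ := IsPGroup.iff_card.1 hpg
      have hn1 : n = 1 := by
        rcases Nat.lt_trichotomy n 1 with h1 | h1 | h1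
        · have : n = 0 := by omega
          rw [this, pow_zero] at hn
          have := hp.two_le
          omega
        · exact h1
        · have h2 : p ^ 2 ≤ Nat.card V := by
            rw [hn]
            exact Nat.pow_le_pow_right hp.pos h1
          have h3 := hp.two_le
          have h4 : 2 * p ≤ p ^ 2 := by nlinarith
          omega
      rw [hn1, pow_one] at hn
      haveI : IsCyclic V := isCyclic_of_prime_card hn
      have e := IsCyclic.mulAutMulEquiv V
      apply e.injective
      rw [map_mul, map_mul, mul_comm]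
    · exact absurd hβ h0
  · obtain ⟨k, hk⟩ := irr_powers h hc hL hlt hβ _ (beta_kap h.inv hc hL g).symm
    obtain ⟨k', hk'⟩ := irr_powers h hc hL hlt hβ _ (beta_kap h.inv hc hL g').symm
    rw [hk, hk', ← pow_add, ← pow_add, add_comm]

end irr

/-- a nontrivial invariant normal subgroup of a solvable group contains a minimal one, which is
abelian -/
lemma exists_irr {G : Type u} [Group G] [Finite G] [Group.IsSolvable G] (ρ : MulAut G) (K : Subgroup G)
    (hK : Inv ρ K) (hne : K ≠ ⊥) :
    ∃ N : Subgroup G, Irr ρ N ∧ N ≤ K ∧ ∀ a b : N, a * b = b * a := by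
  obtain ⟨N, hN⟩ := (Set.toFinite {N : Subgroup G | Inv ρ N ∧ N ≤ K ∧ N ≠ ⊥}).exists_minimal
    ⟨K, hK, le_rfl, hne⟩
  obtain ⟨⟨h1, h2, h3⟩, h4⟩ := hN
  refine ⟨N, ⟨h1, h3, fun X hX hXN hX0 => ?_⟩, h2, ?_⟩
  · exact le_antisymm hXN (h4 ⟨hX, hXN.trans h2, hX0⟩ hXN)
  · have h5 : ⁅N, N⁆ < N := Group.IsSolvable.commutator_lt_of_ne_bot h3
    have h6 : ⁅N, N⁆ = ⊥ := by
      by_contra hcon
      have := h4 ⟨inv_comm h1 h1, h5.le.trans h2, hcon⟩ h5.le
      exact absurd this (not_le_of_gt h5)
    intro a b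
    have h7 := Subgroup.commutator_mem_commutator a.2 b.2
    rw [h6, Subgroup.mem_bot, commutatorElement_eq_one_iff_mul_comm] at h7
    exact Subtype.ext h7

/-- **The bound**: the order of an affine map is at most the size of the kernel times the order of
the induced map. -/
theorem bound : ∀ (n : ℕ) (G H : Type u) [Group G] [Finite G] [Group.IsSolvable G] [Group H] [Finite H]
    (f : G →* H) (_ : Function.Surjective f) (ρ : MulAut G) (t : G) (σ : MulAut H) (s : H)
    (_ : Cm f ρ t σ s), Nat.card G = n →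
    orderOf (P ρ t) * Nat.card H ≤ Nat.card G * orderOf (P σ s) := by
  intro n
  induction n using Nat.strong_induction_on with
  | _ n ih =>
    intro G H _ _ _ _ _ f hf ρ t σ s hcm hn
    have hker : Inv ρ f.ker := by
      refine ⟨inferInstance, fun x hx => ?_⟩
      rw [MonoidHom.mem_ker] at hx ⊢
      rw [hcm.aut, hx, map_one]
    by_cases hbot : f.ker = ⊥
    · have hinj : Function.Injective f := (MonoidHom.ker_eq_bot_iff f).1 hbot
      have h1 : Nat.card G = Nat.card H := Nat.card_congr (Equiv.ofBijective f ⟨hinj, hf⟩)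
      have h2 : orderOf (P ρ t) ≤ orderOf (P σ s) := by
        apply Nat.le_of_dvd (orderOf_pos _)
        apply orderOf_dvd_of_pow_eq_one
        ext x
        apply hinj
        rw [hcm.pow, pow_orderOf_eq_one]
        rfl
      rw [h1, mul_comm]
      exact Nat.mul_le_mul_left _ h2
    · obtain ⟨N, hN, hNK, hNc⟩ := exists_irr ρ f.ker hker hbot
      haveI := hN.inv.nrm
      set L := orderOf (P (quo hN.inv) (QuotientGroup.mk' N t)) with hLdef
      have hq := quo_cm hN.inv t
      have hL : ∀ x, (P ρ t ^ L) x * x⁻¹ ∈ N := by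
        intro x
        rw [← QuotientGroup.eq_one_iff]
        have h1 := hq.pow L x
        rw [hLdef, pow_orderOf_eq_one, Equiv.Perm.one_apply, ← hLdef] at h1
        have h2 : (QuotientGroup.mk' N) ((P ρ t ^ L) x * x⁻¹) = 1 := by
          rw [map_mul, h1, map_inv, mul_inv_cancel]
        exact h2
      have h1 := irr_bound hN hNc hL
      have h2 : orderOf (P ρ t) ≤ L * orderOf (P ρ t ^ L) := by
        apply Nat.le_of_dvd
        · exact Nat.mul_pos (orderOf_pos _) (orderOf_pos _)
        · apply orderOf_dvd_of_pow_eq_one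
          rw [pow_mul, pow_orderOf_eq_one]
      have h3 : Nat.card G = Nat.card (G ⧸ N) * Nat.card N := N.card_eq_card_quotient_mul_card_subgroup
      have h4 : 1 < Nat.card N := by
        have : Nat.card N ≠ 1 := fun h => hN.ne (Subgroup.card_eq_one.1 h)
        have := Nat.card_pos (α := N)
        omega
      have h5 : Nat.card (G ⧸ N) < n := by
        rw [← hn, h3]
        have := Nat.card_pos (α := G ⧸ N)
        nlinarith
      have h6 := ih _ h5 (G ⧸ N) H (QuotientGroup.lift N f hNK)
        (by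
          intro y
          obtain ⟨x, hx⟩ := hf y
          exact ⟨QuotientGroup.mk x, hx⟩)
        (quo hN.inv) (QuotientGroup.mk' N t) σ s
        ⟨fun x => by
          obtain ⟨x, rfl⟩ := QuotientGroup.mk_surjective x
          exact hcm.aut x, hcm.tr⟩ rfl
      rw [← hLdef] at h6
      calc orderOf (P ρ t) * Nat.card H ≤ (L * orderOf (P ρ t ^ L)) * Nat.card H :=
            Nat.mul_le_mul_right _ h2
        _ ≤ (L * Nat.card N) * Nat.card H := Nat.mul_le_mul_right _ (Nat.mul_le_mul_left _ h1)
        _ = (L * Nat.card H) * Nat.card N := by ring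
        _ ≤ (Nat.card (G ⧸ N) * orderOf (P σ s)) * Nat.card N := Nat.mul_le_mul_right _ h6
        _ = Nat.card G * orderOf (P σ s) := by rw [h3]; ring

end Pool.Agent.V1134.AffOrd
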