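import Pool.Agent.V1134.AffOrd.Z

set_option autoImplicit false
set_option linter.unusedSectionVars false
set_option linter.style.haveILetI false

/-! Groups with an affine map of large order are metabelian. -/

namespace Pool.Agent.V1134.AffOrd

universe u

open scoped commutatorElement

section c1

variable {G : Type u} [Group G] [Finite G] [Group.IsSolvable G]
variable {ρ : MulAut G} {t : G} {V : Subgroup G}

/-- if the derived subgroup is a minimal invariant normal subgroup, then `β = 1` -/
theorem c1 (hb : Nat.card G < 2 * orderOf (P ρ t)) (h : Irr ρ V)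
    (hc : ∀ a b : V, a * b = b * a) (hVc : commutator G = V) {L : ℕ} (hl : Lev ρ t V L) :
    res ρ V h.inv ^ L = 1 := by
  by_contra hβ
  have hlt := hl.lt hb
  apply hβ
  apply lemZ hb h.inv hc hVc hl.cos
  · intro g
    exact irr_powers h hc hl.cos hlt hβ _ (beta_kap h.inv hc hl.cos g).symm
  · exact irr_powers h hc hl.cos hlt hβ _ ((Commute.refl (res ρ V h.inv)).pow_right L)

lemma irr_of_prime (h : Inv ρ V) (hp : (Nat.card V).Prime) : Irr ρ V := by
  refine ⟨h, ?_, fun X _ hXV hX => ?_⟩
  · rintro rfl
    rw [Subgroup.card_bot] at hp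
    exact Nat.not_prime_one hp
  · have h1 : Nat.card X ∣ Nat.card V := Subgroup.card_dvd_of_le hXV
    rcases (Nat.dvd_prime hp).1 h1 with h2 | h2
    · exact absurd (Subgroup.card_eq_one.1 h2) hX
    · exact Subgroup.eq_of_le_of_card_ge hXV h2.ge

lemma comm_of_prime (hp : (Nat.card V).Prime) : ∀ a b : V, a * b = b * a := by
  haveI : Fact (Nat.card V).Prime := ⟨hp⟩
  haveI : IsCyclic V := isCyclic_of_prime_card rfl
  intro a b
  exact IsCyclic.commGroup.mul_comm a b

end c1

lemma four {V : Type u} [Group V] (hc : ∀ a b : V, a * b = b * a)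
    (h4 : Nat.card V = 4) (hn : ∀ v : V, v ^ 2 = 1) (β c : MulAut V) (hβ : β ≠ 1)
    (hβ2 : ∀ v, β (β v) = v) (hcc : c * β = β * c) : ∃ k : ℕ, c = β ^ k := by
  have hcβ : ∀ v, c (β v) = β (c v) := fun v => congrArg (fun f : MulAut V => f v) hcc
  obtain ⟨v, hv⟩ : ∃ v, β v ≠ v := by
    by_contra hcon
    push Not at hcon
    exact hβ (MulEquiv.ext fun v => by rw [hcon v, MulAut.one_apply])
  have hfin : Finite V := Nat.finite_of_card_ne_zero (by omega)
  haveI := Fintype.ofFinite V
  classical
  have hv1 : v ≠ 1 := fun h => hv (by rw [h, map_one])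
  have hb1 : β v ≠ 1 := fun h => hv1 (β.injective (by rw [h, map_one]))
  have hsq : v * v = 1 := by rw [← pow_two]; exact hn v
  have hvb : v * β v ≠ 1 := by
    intro h
    apply hv
    exact mul_left_cancel (h.trans hsq.symm)
  have hvb1 : v * β v ≠ v := fun h => hb1 (mul_left_cancel (h.trans (mul_one v).symm))
  have hvb2 : v * β v ≠ β v := fun h => hv1 (mul_right_cancel (h.trans (one_mul _).symm))
  have hS : ({1, v, β v, v * β v} : Finset V) = Finset.univ := by
    apply Finset.eq_univ_of_card
    rw [← Nat.card_eq_fintype_card, h4, Finset.card_insert_of_notMem, Finset.card_insert_of_notMem,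
      Finset.card_insert_of_notMem, Finset.card_singleton]
    · simpa using hvb2.symm
    · simp only [Finset.mem_insert, Finset.mem_singleton, not_or]
      exact ⟨hv.symm, hvb1.symm⟩
    · simp only [Finset.mem_insert, Finset.mem_singleton, not_or]
      exact ⟨hv1.symm, hb1.symm, hvb.symm⟩
  have hall : ∀ x : V, x = 1 ∨ x = v ∨ x = β v ∨ x = v * β v := by
    intro x
    have : x ∈ ({1, v, β v, v * β v} : Finset V) := by rw [hS]; exact Finset.mem_univ x
    simpa using this
  rcases hall (c v) with h | h | h | h
  · exact absurd (c.injective (h.trans (map_one c).symm)) hv1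
  · refine ⟨0, MulEquiv.ext fun x => ?_⟩
    rw [pow_zero, MulAut.one_apply]
    have h2 : c (β v) = β v := by rw [hcβ, h]
    rcases hall x with rfl | rfl | rfl | rfl
    · exact map_one c
    · exact h
    · exact h2
    · rw [map_mul, h, h2]
  · refine ⟨1, MulEquiv.ext fun x => ?_⟩
    rw [pow_one]
    have h2 : c (β v) = v := by rw [hcβ, h, hβ2]
    rcases hall x with rfl | rfl | rfl | rfl
    · rw [map_one, map_one]
    · exact h
    · rw [h2, hβ2]
    · rw [map_mul, h, h2, map_mul, hβ2]
  · exfalso
    apply hv
    apply c.injective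
    rw [hcβ, h, map_mul, hβ2, hc]

/-- if the derived subgroup is abelian of prime exponent `p`, its order is at most `p` -/
theorem c2 (p : ℕ) (hp : p.Prime) : ∀ (n : ℕ) (G : Type u) [Group G] [Finite G]
    [Group.IsSolvable G] (ρ : MulAut G) (t : G), Nat.card G = n →
    Nat.card G < 2 * orderOf (P ρ t) → (∀ a b : commutator G, a * b = b * a) →
    (∀ v : commutator G, v ^ p = 1) → Nat.card (commutator G) ≤ p := by
  intro n
  induction n using Nat.strong_induction_on with
  | _ n ih =>
    intro G _ _ _ ρ t hn hb hc hexp
    by_contra hV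
    push Not at hV
    obtain ⟨V, hVdef⟩ : ∃ V, V = commutator G := ⟨_, rfl⟩
    have h : Inv ρ V := hVdef ▸ inv_commutator ρ
    rw [← hVdef] at hc hexp hV
    haveI := h.nrm
    obtain ⟨L, hl⟩ := exists_lev ρ t V h
    have hlt := hl.lt hb
    haveI : Fact p.Prime := ⟨hp⟩
    have hpg : IsPGroup p V := fun v => ⟨1, by rw [pow_one]; exact hexp v⟩
    obtain ⟨k, hk⟩ := IsPGroup.iff_card.1 hpg
    have hk2 : 2 ≤ k := by
      by_contra hcon
      push Not at hcon
      have : Nat.card V ≤ p := by
        rw [hk]
        calc p ^ k ≤ p ^ 1 := Nat.pow_le_pow_right hp.pos (by omega)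
          _ = p := pow_one p
      omega
    have hpp : p ^ 2 ≤ Nat.card V := by rw [hk]; exact Nat.pow_le_pow_right hp.pos hk2
    have h2p : 2 * p ≤ p ^ 2 := by nlinarith [hp.two_le]
    -- quotients
    have hQ : ∀ N : Subgroup G, Inv ρ N → N ≤ V → N ≠ ⊥ → N ≠ V →
        ∀ v ∈ V, (ρ ^ L) v * v⁻¹ ∈ N := by
      intro N hN hNV hN0 hN1
      haveI := hN.nrm
      have e0 : commutator (G ⧸ N) = V.map (QuotientGroup.mk' N) := by rw [comm_quo, hVdef]
      have hmem : ∀ y : V.map (QuotientGroup.mk' N), ∃ v : V, QuotientGroup.mk' N v = y := by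
        rintro ⟨_, x, hx, rfl⟩
        exact ⟨⟨x, hx⟩, rfl⟩
      have e1 : Nat.card (G ⧸ N) < n := by
        rw [← hn, N.card_eq_card_quotient_mul_card_subgroup]
        have h1 : 0 < Nat.card (G ⧸ N) := Nat.card_pos
        have h2 : 1 < Nat.card N := by
          have h3 : Nat.card N ≠ 1 := fun h => hN0 (Subgroup.card_eq_one.1 h)
          have h4 : 0 < Nat.card N := Nat.card_pos
          omega
        nlinarith
      have hcm : ∀ a b : V.map (QuotientGroup.mk' N), a * b = b * a := by
        intro a b
        obtain ⟨x, hx⟩ := hmem a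
        obtain ⟨y, hy⟩ := hmem b
        apply Subtype.ext
        rw [Subgroup.coe_mul, Subgroup.coe_mul, ← hx, ← hy, ← map_mul, ← map_mul]
        exact congrArg _ (congrArg Subtype.val (hc x y))
      have hem : ∀ a : V.map (QuotientGroup.mk' N), a ^ p = 1 := by
        intro a
        obtain ⟨x, hx⟩ := hmem a
        apply Subtype.ext
        rw [Subgroup.coe_pow, ← hx, ← map_pow]
        have := congrArg Subtype.val (hexp x)
        rw [Subgroup.coe_pow] at this
        rw [this]
        simp
      have e2 := ih _ e1 (G ⧸ N) (quo hN) (QuotientGroup.mk' N t) rfl (quo_large ρ t N hN hb)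
        (by rw [e0]; exact hcm) (by rw [e0]; exact hem)
      rw [e0] at e2
      -- prime order
      have e3 : Nat.card (V.map (QuotientGroup.mk' N)) = p := by
        have hpg' : IsPGroup p (V.map (QuotientGroup.mk' N)) := fun v => ⟨1, by
          rw [pow_one]; exact hem v⟩
        obtain ⟨j, hj⟩ := IsPGroup.iff_card.1 hpg'
        have hj0 : j ≠ 0 := by
          rintro rfl
          have h1 := card_map_mk N V hNV
          rw [hj, pow_zero, one_mul] at h1
          exact hN1 (Subgroup.eq_of_le_of_card_ge hNV h1.ge)
        have h1 : p ^ 1 ≤ p ^ j := Nat.pow_le_pow_right hp.pos (Nat.one_le_iff_ne_zero.2 hj0)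
        rw [pow_one, ← hj] at h1
        omega
      have hinv' : Inv (quo hN) (V.map (QuotientGroup.mk' N)) := by
        rw [← e0]; exact inv_commutator _
      have hirr := irr_of_prime hinv' (by rw [e3]; exact hp)
      have e4 := c1 (quo_large ρ t N hN hb) hirr hcm e0 (hl.quo hN hNV)
      intro v hv
      have e5 : (quo hN ^ L) (QuotientGroup.mk' N v) = QuotientGroup.mk' N v := by
        have h1 := congrArg (fun f : MulAut (V.map (QuotientGroup.mk' N)) =>
          ((f ⟨QuotientGroup.mk' N v, v, hv, rfl⟩ : V.map (QuotientGroup.mk' N)) : G ⧸ N)) e4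
        simp only [res_pow, MulAut.one_apply] at h1
        exact h1
      rw [← (quo_cm hN t).autpow] at e5
      rw [← QuotientGroup.eq_one_iff]
      have e6 : QuotientGroup.mk' N ((ρ ^ L) v * v⁻¹) = 1 := by
        rw [map_mul, e5, map_inv, mul_inv_cancel]
      exact e6
    set β := res ρ V h ^ L with hβdef
    by_cases hβ : β = 1
    · have h1 : orderOf (P ρ t ^ L) ≤ p := Nat.le_of_dvd hp.pos (orderOf_dvd_of_pow_eq_one
        (ord_triv h hc hl.cos p hβ hexp))
      omega
    have hβr : β * res ρ V h = res ρ V h * β := ((Commute.refl (res ρ V h)).pow_left L)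
    have hZ : Inv ρ (fix V β) := fix_inv ρ V h β hβr (fun g => beta_kap h hc hl.cos g)
    have hZV : fix V β ≠ V := by
      intro hcon
      apply hβ
      ext v
      have : (v : G) ∈ fix V β := by rw [hcon]; exact v.2
      exact congrArg Subtype.val ((mem_fix V β v).1 this)
    by_cases hZ0 : fix V β = ⊥
    · by_cases hirr : Irr ρ V
      · exact hβ (c1 hb hirr hc hVdef.symm hl)
      · -- not irreducible
        obtain ⟨X, hX1, hX2, hX3, hX4⟩ : ∃ X : Subgroup G, Inv ρ X ∧ X ≤ V ∧ X ≠ ⊥ ∧ X ≠ V := by
          by_contra hcon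
          push Not at hcon
          apply hirr
          refine ⟨h, ?_, hcon⟩
          rintro rfl
          rw [Subgroup.card_bot] at hV
          have := hp.two_le
          omega
        have h1 := hQ X hX1 hX2 hX3 hX4
        let F : V → X := fun v => ⟨(ρ ^ L) v * (v : G)⁻¹, h1 v v.2⟩
        have hF : Function.Injective F := by
          intro a b hab
          have h2 : (ρ ^ L) a * (a : G)⁻¹ = (ρ ^ L) b * (b : G)⁻¹ := congrArg Subtype.val hab
          have h3 : β a * a⁻¹ = β b * b⁻¹ := by
            apply Subtype.ext
            rw [Subgroup.coe_mul, Subgroup.coe_mul, hβdef, res_pow, res_pow]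
            exact h2
          have h4 : β (b⁻¹ * a) = b⁻¹ * a := by
            rw [map_mul, map_inv, hc (β b)⁻¹]
            have h5 : β a = β b * b⁻¹ * a := by rw [← h3]; simp
            rw [h5, hc (β b) b⁻¹]
            rw [mul_assoc, mul_assoc, hc a, ← mul_assoc (β b)]
            simp
          have h6 := (mem_fix V β _).2 h4
          rw [hZ0, Subgroup.mem_bot] at h6
          have h7 : b⁻¹ * a = 1 := Subtype.ext h6
          exact (inv_mul_eq_one.1 h7).symm
        have h2 := Nat.card_le_card_of_injective F hF
        exact hX4 (Subgroup.eq_of_le_of_card_ge hX2 h2)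
    · have h1 := hQ (fix V β) hZ (fix_le V β) hZ0 hZV
      have hun : ∀ v, β (β v * v⁻¹) = β v * v⁻¹ := by
        intro v
        apply (mem_fix V β _).1
        have h2 := h1 v v.2
        rw [Subgroup.coe_mul, hβdef, res_pow]
        exact h2
      by_cases hp2 : p = 2
      · subst hp2
        have hββ : ∀ v, β (β v) = v := by
          intro v
          have h2 := hun v
          rw [map_mul, map_inv] at h2
          have h3 : β (β v) = β v * v⁻¹ * β v := by rw [← h2]; simp
          have h4 : β v * β v = 1 := by rw [← pow_two]; exact hexp _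
          have h5 : v⁻¹ = v := by
            rw [inv_eq_iff_mul_eq_one, ← pow_two]; exact hexp v
          rw [h3, h5, hc (β v) v, mul_assoc, h4, mul_one]
        have hw : (P ρ t ^ L) ^ 4 = 1 := by
          ext x
          obtain ⟨u, h0, h1', h2, h3⟩ := seq h hl.cos x
          rw [h1' 4, Equiv.Perm.one_apply]
          have e1 : u 2 = β (u 1) * u 1 := by
            have := h3 1
            rwa [pow_one] at this
          have e2 : u 3 = u 1 * u 2 := by
            have := h3 2
            rw [pow_two, MulAut.mul_apply, ← hβdef, hββ] at this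
            exact this
          have e3 : u 4 = β (u 1) * u 3 := by
            have := h3 3
            rw [pow_succ, pow_two, MulAut.mul_apply, MulAut.mul_apply, ← hβdef, hββ] at this
            exact this
          have e4 : u 4 = 1 := by
            rw [e3, e2, e1, ← mul_assoc]
            have := hexp (β (u 1) * u 1)
            rwa [pow_two] at this
          rw [e4]
          simp
        have h2 : orderOf (P ρ t ^ L) ≤ 4 := Nat.le_of_dvd (by norm_num)
          (orderOf_dvd_of_pow_eq_one hw)
        have h4 : Nat.card V = 4 := by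
          have hk3 : k < 3 := by
            by_contra hcon
            push Not at hcon
            have : 2 ^ 3 ≤ 2 ^ k := Nat.pow_le_pow_right (by norm_num) hcon
            rw [hk] at hlt
            omega
          have : k = 2 := by omega
          rw [hk, this]
          norm_num
        apply hβ
        apply lemZ hb h hc hVdef.symm hl.cos
        · intro g
          exact four hc h4 hexp β _ hβ hββ (beta_kap h hc hl.cos g).symm
        · exact four hc h4 hexp β _ hβ hββ hβr.symm
      · have h2 : orderOf (P ρ t ^ L) ≤ p := Nat.le_of_dvd hp.pos (orderOf_dvd_of_pow_eq_one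
          (ord_unip h hc hl.cos p hp hp2 hexp hun))
        omega

end Pool.Agent.V1134.AffOrd
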