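import Pool.Agent.V1134.AffOrd.Basic

set_option autoImplicit false
set_option linter.unusedSectionVars false
set_option linter.style.haveILetI false

/-! Irreducible invariant abelian sections. -/

namespace Pool.Agent.V1134.AffOrd

universe u

variable {G : Type u} [Group G] [Finite G]

/-- `V` is a minimal nontrivial invariant normal subgroup -/
structure Irr (ρ : MulAut G) (V : Subgroup G) : Prop where
  inv : Inv ρ V
  ne : V ≠ ⊥
  min : ∀ X : Subgroup G, Inv ρ X → X ≤ V → X ≠ ⊥ → X = V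

/-- fixed points in `V` of an automorphism `c` of `V` -/
def fix (V : Subgroup G) (c : MulAut V) : Subgroup G where
  carrier := {g | ∃ h : g ∈ V, c ⟨g, h⟩ = ⟨g, h⟩}
  one_mem' := ⟨V.one_mem, map_one c⟩
  mul_mem' := by
    rintro a b ⟨ha, ha'⟩ ⟨hb, hb'⟩
    refine ⟨V.mul_mem ha hb, ?_⟩
    have : (⟨a * b, V.mul_mem ha hb⟩ : V) = ⟨a, ha⟩ * ⟨b, hb⟩ := rfl
    rw [this, map_mul, ha', hb']
  inv_mem' := by
    rintro a ⟨ha, ha'⟩
    refine ⟨V.inv_mem ha, ?_⟩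
    have : (⟨a⁻¹, V.inv_mem ha⟩ : V) = (⟨a, ha⟩)⁻¹ := rfl
    rw [this, map_inv, ha']

lemma fix_le (V : Subgroup G) (c : MulAut V) : fix V c ≤ V := fun _ h => h.1

lemma mem_fix (V : Subgroup G) (c : MulAut V) (v : V) : (v : G) ∈ fix V c ↔ c v = v := by
  constructor
  · rintro ⟨h, h'⟩; exact h'
  · intro h; exact ⟨v.2, h⟩

/-- the conjugation action on a normal subgroup -/
noncomputable def kap (V : Subgroup G) (h : V.Normal) : G →* MulAut V :=
  haveI := h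
  MulAut.conjNormal

lemma kap_coe (V : Subgroup G) (h : V.Normal) (g : G) (v : V) :
    ((kap V h g v : V) : G) = g * v * g⁻¹ := by
  haveI := h
  exact MulAut.conjNormal_apply g v

lemma kap_of_mem (V : Subgroup G) (h : V.Normal) (hc : ∀ a b : V, a * b = b * a) (g : G)
    (hg : g ∈ V) : kap V h g = 1 := by
  ext v
  rw [kap_coe, MulAut.one_apply]
  have := congrArg Subtype.val (hc ⟨g, hg⟩ v)
  simp only [Subgroup.coe_mul] at this
  rw [this, mul_inv_cancel_right]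

lemma kap_rho (ρ : MulAut G) (V : Subgroup G) (h : Inv ρ V) (g : G) :
    kap V h.nrm (ρ g) * res ρ V h = res ρ V h * kap V h.nrm g := by
  ext v
  rw [MulAut.mul_apply, MulAut.mul_apply, kap_coe, res_coe, res_coe, kap_coe]
  simp

lemma fix_inv (ρ : MulAut G) (V : Subgroup G) (h : Inv ρ V) (c : MulAut V)
    (h1 : c * res ρ V h = res ρ V h * c) (h2 : ∀ g, c * kap V h.nrm g = kap V h.nrm g * c) :
    Inv ρ (fix V c) := by
  constructor
  · constructor
    rintro n ⟨hn, hn'⟩ g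
    have h3 := congrArg (fun f : MulAut V => f ⟨n, hn⟩) (h2 g)
    simp only [MulAut.mul_apply, hn'] at h3
    have h4 := (mem_fix V c (kap V h.nrm g ⟨n, hn⟩)).2 h3
    rwa [kap_coe] at h4
  · rintro n ⟨hn, hn'⟩
    have h3 := congrArg (fun f : MulAut V => f ⟨n, hn⟩) h1
    simp only [MulAut.mul_apply, hn'] at h3
    have h4 := (mem_fix V c (res ρ V h ⟨n, hn⟩)).2 h3
    rwa [res_coe] at h4

/-- `P ^ L` preserves the cosets of `V`, and `L ≤ |G / V|` -/
structure Lev (ρ : MulAut G) (t : G) (V : Subgroup G) (L : ℕ) : Prop where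
  pos : 0 < L
  cos : ∀ x, (P ρ t ^ L) x * x⁻¹ ∈ V
  le : L * Nat.card V ≤ Nat.card G

lemma Lev.lt {ρ : MulAut G} {t : G} {V : Subgroup G} {L : ℕ} (h : Lev ρ t V L)
    (hb : Nat.card G < 2 * orderOf (P ρ t)) : Nat.card V < 2 * orderOf (P ρ t ^ L) := by
  have h1 : orderOf (P ρ t) ≤ L * orderOf (P ρ t ^ L) := by
    apply Nat.le_of_dvd
    · exact Nat.mul_pos h.pos (orderOf_pos _)
    · apply orderOf_dvd_of_pow_eq_one
      rw [pow_mul, pow_orderOf_eq_one]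
  have h2 := h.le
  by_contra hcon
  push Not at hcon
  have h3 : L * (2 * orderOf (P ρ t ^ L)) ≤ L * Nat.card V := Nat.mul_le_mul_left _ hcon
  have h4 : L * (2 * orderOf (P ρ t ^ L)) = 2 * (L * orderOf (P ρ t ^ L)) := by ring
  omega

section lev

variable {ρ : MulAut G} {t : G} {V : Subgroup G} (h : Inv ρ V)
  (hc : ∀ a b : V, a * b = b * a) {L : ℕ} (hL : ∀ x, (P ρ t ^ L) x * x⁻¹ ∈ V)

include hL in
/-- `ρ ^ L` is trivial modulo `V` -/
lemma rho_mod (h : Inv ρ V) (g : G) : ∃ v ∈ V, (ρ ^ L) g = v * g := by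
  have h1 := hL g
  have h2 := hL 1
  rw [inv_one, mul_one] at h2
  rw [Ppow_eq] at h1
  set c := (P ρ t ^ L) 1
  have h3 : (ρ ^ L) g = ((ρ ^ L) g * c * g⁻¹) * (g * c⁻¹ * g⁻¹) * g := by group
  refine ⟨((ρ ^ L) g * c * g⁻¹) * (g * c⁻¹ * g⁻¹), V.mul_mem h1 ?_, h3⟩
  haveI := h.nrm
  exact h.nrm.conj_mem _ (V.inv_mem h2) g

include hL hc in
/-- `β = ρ ^ L` on `V` commutes with conjugation -/
lemma beta_kap (g : G) :
    res ρ V h ^ L * kap V h.nrm g = kap V h.nrm g * res ρ V h ^ L := by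
  obtain ⟨v, hv, hg⟩ := rho_mod hL h g
  have h1 : ∀ k : ℕ, kap V h.nrm ((ρ ^ k) g) * res ρ V h ^ k = res ρ V h ^ k * kap V h.nrm g := by
    intro k
    induction k with
    | zero => simp
    | succ k ih =>
      rw [pow_succ' ρ k, MulAut.mul_apply, pow_succ' (res ρ V h) k, ← mul_assoc, kap_rho, mul_assoc,
        ih, ← mul_assoc]
  have h2 := h1 L
  rw [hg, map_mul, kap_of_mem V h.nrm hc v hv, one_mul] at h2
  exact h2.symm

include h hL in
lemma tau_mem (x : G) (k : ℕ) : ((P ρ t ^ L) ^ k) x * x⁻¹ ∈ V := by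
  induction k generalizing x with
  | zero => simp
  | succ k ih =>
    have h1 := ih ((P ρ t ^ L) x)
    have h2 := hL x
    have h3 : ((P ρ t ^ L) ^ (k + 1)) x * x⁻¹ =
        (((P ρ t ^ L) ^ k) ((P ρ t ^ L) x) * ((P ρ t ^ L) x)⁻¹) * ((P ρ t ^ L) x * x⁻¹) := by
      rw [pow_succ, Equiv.Perm.mul_apply]
      group
    rw [h3]
    exact V.mul_mem h1 h2

include hL in
/-- there is a sequence `u k` in `V` with `B ^ k x = u k * x`, and the two recursions -/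
lemma seq (x : G) : ∃ u : ℕ → V, u 0 = 1 ∧ (∀ k, ((P ρ t ^ L) ^ k) x = u k * x) ∧
    (∀ k, u (k + 1) = (res ρ V h ^ L) (u k) * u 1) ∧
    (∀ k, u (k + 1) = ((res ρ V h ^ L) ^ k) (u 1) * u k) := by
  refine ⟨fun k => ⟨((P ρ t ^ L) ^ k) x * x⁻¹, tau_mem h hL x k⟩, ?_, ?_, ?_, ?_⟩
  · apply Subtype.ext; simp
  · intro k; simp
  · intro k
    apply Subtype.ext
    rw [Subgroup.coe_mul, res_pow]
    show ((P ρ t ^ L) ^ (k + 1)) x * x⁻¹ =
      (ρ ^ L) (((P ρ t ^ L) ^ k) x * x⁻¹) * (((P ρ t ^ L) ^ 1) x * x⁻¹)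
    have h1 : ((P ρ t ^ L) ^ (k + 1)) x = (P ρ t ^ L) ((((P ρ t ^ L) ^ k) x * x⁻¹) * x) := by
      rw [pow_succ', Equiv.Perm.mul_apply]
      simp
    rw [h1, Ppow_mul, pow_one, mul_assoc]
  · intro k
    apply Subtype.ext
    rw [Subgroup.coe_mul, ← pow_mul, res_pow]
    show ((P ρ t ^ L) ^ (k + 1)) x * x⁻¹ =
      (ρ ^ (L * k)) (((P ρ t ^ L) ^ 1) x * x⁻¹) * (((P ρ t ^ L) ^ k) x * x⁻¹)
    have h1 : ((P ρ t ^ L) ^ (k + 1)) x =
        ((P ρ t ^ L) ^ k) ((((P ρ t ^ L) ^ 1) x * x⁻¹) * x) := by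
      rw [pow_succ, Equiv.Perm.mul_apply]
      simp
    rw [h1, Ppow_pow_mul, ← pow_mul ρ, mul_assoc]

include hc hL in
/-- `β` fixed point free and `β ^ o = 1` imply `B ^ o = 1`. -/
lemma ord_free (o : ℕ) (ho : (res ρ V h ^ L) ^ o = 1)
    (hfree : ∀ v, (res ρ V h ^ L) v = v → v = 1) : (P ρ t ^ L) ^ o = 1 := by
  ext x
  obtain ⟨u, -, h1, h2, h3⟩ := seq h hL x
  rw [h1 o, Equiv.Perm.one_apply]
  have h4 : (res ρ V h ^ L) (u o) * u 1 = u 1 * u o := by
    rw [← h2 o, h3 o, ho, MulAut.one_apply]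
  rw [hc (u 1)] at h4
  have h5 := hfree _ (mul_right_cancel h4)
  rw [h5]
  simp

include hc hL in
/-- `β = 1` and exponent `n` imply `B ^ n = 1`. -/
lemma ord_triv (n : ℕ) (hβ : res ρ V h ^ L = 1) (hn : ∀ v : V, v ^ n = 1) :
    (P ρ t ^ L) ^ n = 1 := by
  ext x
  obtain ⟨u, h0, h1, h2, h3⟩ := seq h hL x
  have h4 : ∀ k, u k = u 1 ^ k := by
    intro k
    induction k with
    | zero => rw [h0, pow_zero]
    | succ k ih => rw [h2 k, hβ, MulAut.one_apply, ih, pow_succ, ← ih]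
  rw [h1 n, h4 n, hn, Equiv.Perm.one_apply]
  simp

include hc hL in
/-- unipotent case, odd prime -/
lemma ord_unip (p : ℕ) (hp : p.Prime) (hp2 : p ≠ 2) (hn : ∀ v : V, v ^ p = 1)
    (hun : ∀ v, (res ρ V h ^ L) ((res ρ V h ^ L) v * v⁻¹) = (res ρ V h ^ L) v * v⁻¹) :
    (P ρ t ^ L) ^ p = 1 := by
  ext x
  obtain ⟨u, h0, h1, h2, h3⟩ := seq h hL x
  set β := res ρ V h ^ L with hβdef
  set τ := u 1 with hτ
  set d := β τ * τ⁻¹ with hd
  have hcc : ∀ a b : V, Commute a b := hc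
  have hd1 : β d = d := hun τ
  have hβk : ∀ k : ℕ, (β ^ k) τ = τ * d ^ k := by
    intro k
    induction k with
    | zero => simp
    | succ k ih =>
      rw [pow_succ', MulAut.mul_apply, ih, map_mul, map_pow, hd1]
      have : β τ = τ * d := by rw [hc τ d, hd]; simp
      rw [this, pow_succ', mul_assoc]
  have hu : ∀ k : ℕ, (u k) ^ 2 = τ ^ (2 * k) * d ^ (k * (k - 1)) := by
    intro k
    induction k with
    | zero => rw [h0]; simp
    | succ k ih =>
      rw [h3 k, hβk, (hcc _ _).mul_pow, ih, (hcc _ _).mul_pow, ← pow_mul]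
      have e1 : τ ^ 2 * d ^ (k * 2) * (τ ^ (2 * k) * d ^ (k * (k - 1))) =
          τ ^ 2 * τ ^ (2 * k) * (d ^ (k * 2) * d ^ (k * (k - 1))) := by
        rw [mul_assoc, mul_assoc, ← mul_assoc (d ^ (k * 2)), hc (d ^ (k * 2)) (τ ^ (2 * k)), mul_assoc]
      rw [e1, ← pow_add, ← pow_add]
      congr 2
      · ring
      · cases k with
        | zero => simp
        | succ k => simp only [Nat.add_sub_cancel]; ring
  have h5 : (u p) ^ 2 = 1 := by
    rw [hu p, mul_comm 2 p, pow_mul, hn, one_pow, one_mul, pow_mul, hn, one_pow]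
  have h6 : u p = 1 := by
    have h7 := hn (u p)
    have h8 : Nat.Coprime 2 p := (Nat.coprime_primes Nat.prime_two hp).2 (Ne.symm hp2)
    have h9 := Nat.dvd_gcd (orderOf_dvd_of_pow_eq_one h5) (orderOf_dvd_of_pow_eq_one h7)
    rw [h8] at h9
    exact orderOf_eq_one_iff.1 (Nat.dvd_one.1 h9)
  rw [h1 p, h6, Equiv.Perm.one_apply]
  simp

end lev

end Pool.Agent.V1134.AffOrd
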