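import Pool.Agent.V1134.AffOrd.Irr

set_option autoImplicit false
set_option linter.unusedSectionVars false
set_option linter.style.haveILetI false

/-! The derived subgroup of a group with an affine map of large order. -/

namespace Pool.Agent.V1134.AffOrd

universe u

open scoped commutatorElement

section Z

variable {G : Type u} [Group G] [Finite G] [Group.IsSolvable G]
variable {ρ : MulAut G} {t : G} {V : Subgroup G}

/-- if `ρ` and all conjugations act on the derived subgroup as powers of `β` then `β = 1` -/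
theorem lemZ (hb : Nat.card G < 2 * orderOf (P ρ t)) (h : Inv ρ V)
    (hc : ∀ a b : V, a * b = b * a) (hVc : commutator G = V) {L : ℕ}
    (hL : ∀ x, (P ρ t ^ L) x * x⁻¹ ∈ V)
    (hκ : ∀ g, ∃ k : ℕ, kap V h.nrm g = (res ρ V h ^ L) ^ k)
    (hρ : ∃ k : ℕ, res ρ V h = (res ρ V h ^ L) ^ k) : res ρ V h ^ L = 1 := by
  set β := res ρ V h ^ L with hβ
  obtain ⟨k, hk⟩ := hρ
  have hcomm : ∀ g, Commute (kap V h.nrm g) (res ρ V h) := by
    intro g
    obtain ⟨j, hj⟩ := hκ g
    rw [hj, hk]
    exact ((Commute.refl β).pow_left j).pow_right k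
  have h1 : ∀ g, kap V h.nrm (ρ g) = kap V h.nrm g := by
    intro g
    have := kap_rho ρ V h g
    rw [← (hcomm g).eq] at this
    exact mul_right_cancel this
  have h2 : ∀ (j : ℕ) (x : G), kap V h.nrm ((P ρ t ^ j) x) = kap V h.nrm x * kap V h.nrm t ^ j := by
    intro j x
    induction j with
    | zero => simp
    | succ j ih =>
      rw [pow_succ', Equiv.Perm.mul_apply, P_apply, map_mul, h1, ih, pow_succ, mul_assoc]
  have h3 : kap V h.nrm t ^ L = 1 := by
    have h4 := h2 L 1
    rw [map_one (kap V h.nrm), one_mul] at h4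
    rw [← h4]
    apply kap_of_mem V h.nrm hc
    have := hL 1
    rwa [inv_one, mul_one] at this
  have h5 : kap V h.nrm t ^ orderOf β = 1 := by
    obtain ⟨j, hj⟩ := hκ t
    rw [hj, ← pow_mul, mul_comm, pow_mul, pow_orderOf_eq_one, one_pow]
  have h6 : Nat.Coprime L (orderOf β) := by
    have h7 : β ^ (k * L) = β ^ 1 := by
      rw [pow_mul, ← hk, pow_one]
    have h8 := (pow_eq_pow_iff_modEq).1 h7
    have h9 := Nat.ModEq.gcd_eq h8
    rw [Nat.gcd_one_left] at h9
    exact Nat.Coprime.coprime_mul_left h9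
  have h7 : kap V h.nrm t = 1 := by
    have h8 := Nat.dvd_gcd (orderOf_dvd_of_pow_eq_one h3) (orderOf_dvd_of_pow_eq_one h5)
    rw [h6] at h8
    exact orderOf_eq_one_iff.1 (Nat.dvd_one.1 h8)
  have h8 := bound (Nat.card G) G (kap V h.nrm).range (kap V h.nrm).rangeRestrict
    (kap V h.nrm).rangeRestrict_surjective ρ t 1 1
    ⟨fun x => Subtype.ext (h1 x), Subtype.ext h7⟩ rfl
  rw [P_one, orderOf_one, mul_one] at h8
  have h9 : Nat.card (kap V h.nrm).range = 1 := by
    have h10 : 0 < Nat.card (kap V h.nrm).range := Nat.card_pos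
    by_contra hcon
    have h11 : 2 ≤ Nat.card (kap V h.nrm).range := by omega
    have h12 := Nat.mul_le_mul_left (orderOf (P ρ t)) h11
    omega
  have h10 : ∀ g, kap V h.nrm g = 1 := by
    intro g
    have h11 := Subgroup.card_eq_one.1 h9
    have h12 : kap V h.nrm g ∈ (kap V h.nrm).range := ⟨g, rfl⟩
    rwa [h11, Subgroup.mem_bot] at h12
  have hcen : ∀ v ∈ V, ∀ g : G, g * v = v * g := by
    intro v hv g
    have h11 := congrArg (fun f : MulAut V => ((f ⟨v, hv⟩ : V) : G)) (h10 g)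
    simp only [kap_coe, MulAut.one_apply] at h11
    rw [mul_inv_eq_iff_eq_mul] at h11
    exact h11
  have hfix : commutator G ≤ MonoidHom.eqLocus ((ρ ^ L : G ≃* G).toMonoidHom) (MonoidHom.id G) := by
    rw [commutator_def, Subgroup.commutator_le]
    intro a _ b _
    show (ρ ^ L) ⁅a, b⁆ = ⁅a, b⁆
    obtain ⟨z, hz, hz1⟩ := rho_mod hL h a
    obtain ⟨y, hy, hy1⟩ := rho_mod hL h b
    rw [map_commutatorElement, hz1, hy1]
    rw [commutatorElement_def, commutatorElement_def]
    have e1 : ∀ g, z * g = g * z := fun g => (hcen z hz g).symm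
    have e2 : ∀ g, y * g = g * y := fun g => (hcen y hy g).symm
    rw [mul_inv_rev, mul_inv_rev, e1 a, e2 b]
    have e3 : a * z * (b * y) * (a⁻¹ * z⁻¹) * (b⁻¹ * y⁻¹) =
        a * (z * b) * y * a⁻¹ * (z⁻¹ * b⁻¹) * y⁻¹ := by group
    rw [e3, e1 b]
    have e4 : z⁻¹ * b⁻¹ = b⁻¹ * z⁻¹ := by rw [← mul_inv_rev, ← mul_inv_rev, e1 b]
    rw [e4]
    have e5 : a * (b * z) * y * a⁻¹ * (b⁻¹ * z⁻¹) * y⁻¹ =
        a * b * (z * (y * (a⁻¹ * b⁻¹))) * z⁻¹ * y⁻¹ := by group
    rw [e5, e2, e1]
    group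
  ext v
  rw [hβ, res_pow, MulAut.one_apply]
  have : (v : G) ∈ commutator G := by rw [hVc]; exact v.2
  exact hfix this

end Z

section lev

variable {G : Type u} [Group G] [Finite G] [Group.IsSolvable G]

lemma exists_lev (ρ : MulAut G) (t : G) (V : Subgroup G) (h : Inv ρ V) : ∃ L, Lev ρ t V L := by
  haveI := h.nrm
  have hq := quo_cm h t
  set L := orderOf (P (quo h) (QuotientGroup.mk' V t)) with hLdef
  refine ⟨L, orderOf_pos _, ?_, ?_⟩
  · intro x
    rw [← QuotientGroup.eq_one_iff]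
    have h1 := hq.pow L x
    rw [hLdef, pow_orderOf_eq_one, Equiv.Perm.one_apply, ← hLdef] at h1
    have h2 : (QuotientGroup.mk' V) ((P ρ t ^ L) x * x⁻¹) = 1 := by
      rw [map_mul, h1, map_inv, mul_inv_cancel]
    exact h2
  · have h1 := bound _ (G ⧸ V) PUnit.{u+1} 1 (fun x => ⟨1, by simp⟩) (quo h)
      (QuotientGroup.mk' V t) 1 1 ⟨fun x => rfl, rfl⟩ rfl
    rw [P_one, orderOf_one, mul_one] at h1
    have h2 : Nat.card PUnit.{u+1} = 1 := by simp
    rw [h2, mul_one] at h1
    rw [V.card_eq_card_quotient_mul_card_subgroup]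
    exact Nat.mul_le_mul_right _ h1

lemma quo_large (ρ : MulAut G) (t : G) (N : Subgroup G) (h : Inv ρ N)
    (hb : Nat.card G < 2 * orderOf (P ρ t)) :
    haveI := h.nrm
    Nat.card (G ⧸ N) < 2 * orderOf (P (quo h) (QuotientGroup.mk' N t)) := by
  haveI := h.nrm
  have h1 := bound _ G (G ⧸ N) (QuotientGroup.mk' N) (QuotientGroup.mk'_surjective N) ρ t (quo h)
    (QuotientGroup.mk' N t) (quo_cm h t) rfl
  have h2 : 0 < Nat.card G := Nat.card_pos
  have h3 : 0 < Nat.card (G ⧸ N) := Nat.card_pos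
  by_contra hcon
  push Not at hcon
  have h4 : Nat.card G * (2 * orderOf (P (quo h) (QuotientGroup.mk' N t))) ≤
      Nat.card G * Nat.card (G ⧸ N) := Nat.mul_le_mul_left _ hcon
  have h5 : Nat.card G * Nat.card (G ⧸ N) < (2 * orderOf (P ρ t)) * Nat.card (G ⧸ N) :=
    Nat.mul_lt_mul_of_pos_right hb h3
  nlinarith

end lev

section q

variable {G : Type u} [Group G] [Finite G]

lemma card_map_mk (N V : Subgroup G) [N.Normal] (hNV : N ≤ V) :
    Nat.card (V.map (QuotientGroup.mk' N)) * Nat.card N = Nat.card V := by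
  have h1 := (N.subgroupOf V).card_eq_card_quotient_mul_card_subgroup
  have h2 : Nat.card (N.subgroupOf V) = Nat.card N :=
    Nat.card_congr (Subgroup.subgroupOfEquivOfLe hNV).toEquiv
  let f : V →* G ⧸ N := (QuotientGroup.mk' N).comp V.subtype
  have hk : f.ker = N.subgroupOf V := by
    ext v
    rw [MonoidHom.mem_ker, Subgroup.mem_subgroupOf]
    exact QuotientGroup.eq_one_iff (v : G)
  have hr : f.range = V.map (QuotientGroup.mk' N) := by
    rw [MonoidHom.range_comp, Subgroup.range_subtype]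
  have h3 : Nat.card (V ⧸ f.ker) = Nat.card f.range :=
    Nat.card_congr (QuotientGroup.quotientKerEquivRange f).toEquiv
  rw [hk] at h3
  rw [h1, h3, hr, h2]

lemma comm_quo (N : Subgroup G) [N.Normal] :
    commutator (G ⧸ N) = (commutator G).map (QuotientGroup.mk' N) := by
  rw [commutator_def, commutator_def, Subgroup.map_commutator,
    Subgroup.map_top_of_surjective _ (QuotientGroup.mk'_surjective N)]

lemma Lev.quo {ρ : MulAut G} {t : G} {V N : Subgroup G} {L : ℕ} (hl : Lev ρ t V L) (h : Inv ρ N)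
    (hNV : N ≤ V) :
    haveI := h.nrm
    Lev (quo h) (QuotientGroup.mk' N t) (V.map (QuotientGroup.mk' N)) L := by
  haveI := h.nrm
  refine ⟨hl.pos, ?_, ?_⟩
  · intro y
    obtain ⟨x, rfl⟩ := QuotientGroup.mk'_surjective N y
    rw [← (quo_cm h t).pow, ← map_inv, ← map_mul]
    exact ⟨_, hl.cos x, rfl⟩
  · have h1 := card_map_mk N V hNV
    have h2 := N.card_eq_card_quotient_mul_card_subgroup
    have h3 := hl.le
    rw [← h1, h2, ← mul_assoc] at h3
    exact Nat.le_of_mul_le_mul_right h3 Nat.card_pos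

end q

end Pool.Agent.V1134.AffOrd
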